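import Pool.Agent.PSS.StmtsS4

/-! Squad PSS, row ORB (400). -/

set_option autoImplicit false

namespace Pool.Agent.PSS.H85

open Pool.Agent.PFC (tw IsTv)

/-- the sum over the orbit of a point which is not fixed -/
theorem orbit_sum {R P K M : Type} [CommRing R] [Group P] [Fintype K] [DecidableEq K]
    [MulAction P K] [AddCommGroup M] [Module R M] (ρ : P →* (M →ₗ[R] M)) (f : K → M)
    (hf : ∀ p k, f (p • k) = ρ p (f k)) (k0 : K)
    (hk : ¬ (⊤ : Subgroup P) ≤ MulAction.stabilizer P k0) (s : Finset K)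
    (hs : ∀ k, k ∈ s ↔ ∃ p : P, p • k0 = k) : ∑ k ∈ s, f k ∈ BKR ρ ⊤ := by
  classical
  have h1 : ∀ k, ∃ p : P, k ∈ s → p • k0 = k := by
    intro k
    by_cases hks : k ∈ s
    · obtain ⟨p, hp⟩ := (hs k).1 hks
      exact ⟨p, fun _ => hp⟩
    · exact ⟨1, fun h => absurd h hks⟩
  choose x hx using h1
  refine Submodule.subset_span ⟨MulAction.stabilizer P k0, s.image x, f k0, ?_, ?_, ?_, ?_⟩
  · exact lt_of_le_of_ne le_top fun h => hk (le_of_eq h.symm)
  · refine ⟨fun _ _ => Subgroup.mem_top _, fun p _ => ?_⟩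
    have hps : p • k0 ∈ s := (hs _).2 ⟨p, rfl⟩
    refine ⟨x (p • k0), ⟨Finset.mem_image_of_mem x hps, ?_⟩, ?_⟩
    · rw [MulAction.mem_stabilizer_iff, mul_smul, inv_smul_eq_iff, hx _ hps]
    · rintro y ⟨hy, hy2⟩
      obtain ⟨k, hks, rfl⟩ := Finset.mem_image.1 hy
      rw [MulAction.mem_stabilizer_iff, mul_smul, inv_smul_eq_iff, hx _ hks] at hy2
      rw [hy2]
  · intro p hp
    rw [MulAction.mem_stabilizer_iff] at hp
    rw [← hf, hp]
  · rw [Finset.sum_image]
    · refine Finset.sum_congr rfl fun k hks => ?_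
      rw [← hf, hx k hks]
    · intro a ha b hb hab
      rw [← hx a ha, ← hx b hb, hab]

theorem orb : OrbStmt := by
  intro R P K M _ _ _ _ _ _ _ ρ f hf
  classical
  have h1 : ∑ k : Fp K (⊤ : Subgroup P), f k.1 =
      ∑ k ∈ Finset.univ.filter (fun k : K => (⊤ : Subgroup P) ≤ MulAction.stabilizer P k), f k := by
    symm
    refine Finset.sum_bij' (fun k hk => (⟨k, (Finset.mem_filter.1 hk).2⟩ : Fp K (⊤ : Subgroup P)))
      (fun k _ => k.1) ?_ ?_ ?_ ?_ ?_
    · intro k _
      exact Finset.mem_univ _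
    · intro k _
      exact Finset.mem_filter.2 ⟨Finset.mem_univ _, k.2⟩
    · intro k _
      rfl
    · intro k _
      rfl
    · intro k _
      rfl
  rw [h1, ← Finset.sum_filter_add_sum_filter_not Finset.univ
    (fun k : K => (⊤ : Subgroup P) ≤ MulAction.stabilizer P k) f, add_sub_cancel_left,
    ← Finset.sum_fiberwise _ (fun k => (Quotient.mk (MulAction.orbitRel P K) k)) f]
  refine Submodule.sum_mem _ fun q _ => ?_
  by_cases hq : ∃ k0, ¬ (⊤ : Subgroup P) ≤ MulAction.stabilizer P k0 ∧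
      Quotient.mk (MulAction.orbitRel P K) k0 = q
  · obtain ⟨k0, hk0, rfl⟩ := hq
    refine orbit_sum ρ f hf k0 hk0 _ fun k => ?_
    rw [Finset.mem_filter, Finset.mem_filter]
    constructor
    · rintro ⟨_, h⟩
      have h2 : (MulAction.orbitRel P K).r k k0 := Quotient.exact h
      exact h2
    · rintro ⟨p, rfl⟩
      refine ⟨⟨Finset.mem_univ _, fun h => hk0 fun g _ => ?_⟩, Quotient.sound ⟨p, rfl⟩⟩
      have h3 : p * g * p⁻¹ ∈ MulAction.stabilizer P (p • k0) := h (Subgroup.mem_top _)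
      rw [MulAction.mem_stabilizer_iff, mul_smul, inv_smul_smul, mul_smul] at h3
      rw [MulAction.mem_stabilizer_iff]
      exact smul_left_cancel p h3
  · rw [Finset.filter_eq_empty_iff.2, Finset.sum_empty]
    · exact Submodule.zero_mem _
    · intro k hk h
      exact hq ⟨k, (Finset.mem_filter.1 hk).2, h⟩

end Pool.Agent.PSS.H85
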