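import Pool.Agent.PSS.StmtsS1d

/-! Squad PSS, row LKX (160). -/

set_option autoImplicit false

namespace Pool.Agent.PSS.H85

open Finset
open Dm (cst)
open Pool.Agent.PFD.D2b (FrR)

theorem sum_of {k A W : Type} [CommRing k] [Ring A] [Algebra k A] [Group W] {om : W →* A}
    (D : Dm k om) {Ω : Type} (s : Finset Ω) (f : Ω → ℕ → A) :
    D.of (∑ ω ∈ s, f ω) = ∑ ω ∈ s, D.of (f ω) := by
  classical
  induction s using Finset.induction with
  | empty => rw [Finset.sum_empty, Finset.sum_empty, D.of_zero]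
  | insert a s ha ih => rw [Finset.sum_insert ha, Finset.sum_insert ha, D.of_add, ih]

theorem smulq_cst {k A : Type} [CommRing k] [Ring A] [Algebra k A] (c : PowerSeries k) (a : A)
    (n : ℕ) : Dm.smulq c (cst a) n = PowerSeries.coeff n c • a := by
  rw [Dm.smulq, Finset.sum_eq_single (n, 0)]
  · rw [cst, if_pos rfl]
  · rintro ⟨i, j⟩ h hne
    rw [Finset.HasAntidiagonal.mem_antidiagonal] at h
    rw [cst, if_neg, smul_zero]
    intro hj
    apply hne
    simp only at hj h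
    subst hj
    rw [← h]
    rfl
  · intro h
    exact absurd (by rw [Finset.HasAntidiagonal.mem_antidiagonal]; rfl) h

theorem lkx (rmp : RmpStmt) (fn : FunStmt) (rfe : RfeStmt) : LkxStmt := by
  intro R K V A B κ κ' Ω _ _ _ _ _ _ _ _ _ _ _ _ _ _ _ W _ α lam x y b c C D D' Λ x' y' hm hRF
  obtain ⟨ψ, hψ1, hψ2, hψ3, -, -⟩ := rmp R K W A B (aw α W) (aw (ia C.i α) W) D D'
    (C.i : A →+* B) (algebraMap R K) (fun r => by
      have h := C.tow r 1
      rw [← Algebra.algebraMap_eq_smul_one, ← Algebra.algebraMap_eq_smul_one] at h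
      rw [h]
      exact C.i.commutes r) (fun w => rfl) (fun n a a' => hm n a a')
  obtain ⟨t, ht⟩ := (fn R W A (aw α W) D).2 Λ
  obtain ⟨Λ', hΛ'⟩ := (fn K W B (aw (ia C.i α) W) D').1
    (fun n => ∑ ω, algebraMap R K (t n (b ω)) • C.cK ω)
  have htK : ∀ n a, (∑ ω, algebraMap R K (t n (b ω)) • C.cK ω) (C.i a) =
      algebraMap R K (t n a) := by
    intro n a
    rw [LinearMap.sum_apply]
    conv_rhs => rw [← C.fr.2.2 a]
    rw [map_sum, map_sum]
    refine Finset.sum_congr rfl fun ω _ => ?_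
    rw [LinearMap.smul_apply, C.ck, map_smul, smul_eq_mul, smul_eq_mul, map_mul, mul_comm]
  have hmap : ∀ a, Λ' (ψ a) = PowerSeries.map (algebraMap R K) (Λ a) := by
    intro a
    rw [← D.of_sq a, hψ1]
    ext n
    rw [hΛ', PowerSeries.coeff_map, ht, map_sum]
    exact Finset.sum_congr rfl fun p _ => htK p.1 _
  -- spanning
  have hspan : ∀ z : D'.R, ∃ r : Ω → PowerSeries K,
      z = ∑ ω, r ω • ψ (D.of (cst (b ω))) := by
    intro z
    refine ⟨fun ω => PowerSeries.mk fun n => C.cK ω (D'.sq z n), ?_⟩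
    have h1 : ∀ ω, ψ (D.of (cst (b ω))) = D'.of (cst (C.i (b ω))) := by
      intro ω
      rw [hψ1]
      congr 1
      funext n
      change C.i (cst (b ω) n) = _
      rw [cst, cst]
      split_ifs
      · rfl
      · exact map_zero _
    conv_lhs => rw [← D'.of_sq z]
    have h2 : ∀ ω, (PowerSeries.mk fun n => C.cK ω (D'.sq z n)) • ψ (D.of (cst (b ω))) =
        D'.of (fun n => C.cK ω (D'.sq z n) • C.i (b ω)) := by
      intro ω
      rw [h1, ← D'.of_smul]
      congr 1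
      funext n
      rw [smulq_cst, PowerSeries.coeff_mk]
    simp_rw [h2]
    rw [← sum_of]
    congr 1
    funext n
    rw [Finset.sum_apply]
    exact (C.frK.2.2 (D'.sq z n)).symm
  have hsym : ∀ a a', Λ' (a * a') = Λ' (a' * a) := by
    intro a a'
    obtain ⟨r, hr⟩ := hspan a
    obtain ⟨r', hr'⟩ := hspan a'
    rw [hr, hr', Finset.sum_mul_sum, Finset.sum_mul_sum, map_sum, map_sum]
    simp_rw [map_sum]
    rw [Finset.sum_comm]
    refine Finset.sum_congr rfl fun ω _ => Finset.sum_congr rfl fun ω' _ => ?_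
    rw [smul_mul_assoc, mul_smul_comm, map_smul, map_smul, smul_mul_assoc, mul_smul_comm,
      map_smul, map_smul, ← map_mul, ← map_mul, hmap, hmap, hRF.sym, smul_comm]
  have he1 : ∀ a, ∑ k, ∑ v, Λ' (D'.w v⁻¹ * ψ (y' k) * a) • (ψ (x' k) * D'.w v) = a := by
    intro a
    obtain ⟨r, hr⟩ := hspan a
    have h1 : ∀ s, ∑ k, ∑ v, Λ' (D'.w v⁻¹ * ψ (y' k) * ψ s) • (ψ (x' k) * D'.w v) = ψ s := by
      intro s
      conv_rhs => rw [← hRF.e1 s]
      rw [map_sum]
      refine Finset.sum_congr rfl fun k _ => ?_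
      rw [map_sum]
      refine Finset.sum_congr rfl fun v _ => ?_
      rw [hψ2, map_mul ψ (x' k), hψ3, ← hψ3 v⁻¹, ← map_mul ψ, ← map_mul ψ, hmap]
    rw [hr]
    have h2 : ∀ k v, Λ' (D'.w v⁻¹ * ψ (y' k) * ∑ ω, r ω • ψ (D.of (cst (b ω)))) •
        (ψ (x' k) * D'.w v) = ∑ ω, r ω • (Λ' (D'.w v⁻¹ * ψ (y' k) * ψ (D.of (cst (b ω)))) •
        (ψ (x' k) * D'.w v)) := by
      intro k v
      rw [Finset.mul_sum, map_sum, Finset.sum_smul]
      refine Finset.sum_congr rfl fun ω _ => ?_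
      rw [mul_smul_comm, map_smul, smul_assoc]
    simp_rw [h2]
    have h3 : ∀ k, ∑ v, ∑ ω, r ω • (Λ' (D'.w v⁻¹ * ψ (y' k) * ψ (D.of (cst (b ω)))) •
        (ψ (x' k) * D'.w v)) = ∑ ω, ∑ v, r ω • (Λ' (D'.w v⁻¹ * ψ (y' k) *
        ψ (D.of (cst (b ω)))) • (ψ (x' k) * D'.w v)) := fun k => Finset.sum_comm
    simp_rw [h3]
    rw [Finset.sum_comm]
    refine Finset.sum_congr rfl fun ω _ => ?_
    simp_rw [← Finset.smul_sum]
    rw [h1]
  exact ⟨ψ, Λ', hψ1, hψ3, hmap,
    (rfe (PowerSeries K) W D'.R κ' D'.w Λ' (fun k => ψ (x' k)) (fun k => ψ (y' k)) hsym he1).1⟩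

end Pool.Agent.PSS.H85
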