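import Pool.Agent.PSS.StmtsS5

/-! Squad PSS, row ZCF (503): the centre of a corner which is full in the part `A b`.
Model: `Helper76_PFC/ZCN.lean`. -/

set_option autoImplicit false

open scoped BigOperators TensorProduct

noncomputable section

namespace Pool.Agent.PSS.S5.H85

open Pool.Agent.PFC (Cnr)
open Pool.Agent.PSS Pool.Agent.PSS.S5

section

variable {F X Y : Type} [Field F] [Ring X] [Algebra F X] [Ring Y] [Algebra F Y] {j b : X}
  {κ : Y →ₗ[F] X}

/-- a finite sum -/
theorem exists_sum (hbb : b * b = b)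
    (h : b ∈ Submodule.span F {x : X | ∃ s t : X, x = s * j * t}) :
    ∃ (n : ℕ) (s t : Fin n → X), ∑ k, s k * j * t k = b ∧ ∀ k, b * s k = s k := by
  obtain ⟨n, f, g, hg⟩ := Submodule.mem_span_set'.1 h
  choose s t hst using fun i => (g i).2
  refine ⟨n, fun i => b * (f i • s i), t, ?_, fun k => ?_⟩
  · calc ∑ k, b * (f k • s k) * j * t k = b * ∑ i, f i • (g i : X) := by
          rw [Finset.mul_sum]
          refine Finset.sum_congr rfl fun i _ => ?_
          rw [hst, mul_assoc, mul_assoc, smul_mul_assoc, mul_assoc]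
      _ = b := by rw [hg, hbb]
  · rw [← mul_assoc, hbb]

theorem zcf_aux (hc : Cnr j κ) (hcb : ∀ a, b * a = a * b) (hbb : b * b = b) (hbj : b * j = j)
    (h : b ∈ Submodule.span F {x : X | ∃ s t : X, x = s * j * t}) :
    Nonempty (zb F b ≃ₗ[F] Subalgebra.center F Y) := by
  have hjj : j * j = j := by rw [← hc.one, ← hc.mul, one_mul]
  have hl : ∀ y, j * κ y = κ y := fun y => by rw [← hc.one, ← hc.mul, one_mul]
  have hr : ∀ y, κ y * j = κ y := fun y => by rw [← hc.one, ← hc.mul, mul_one]
  obtain ⟨n, s, t, hst, hbs⟩ := exists_sum hbb h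
  have hcen : ∀ z : zb F b, ∀ x, (z : X) * x = x * z := fun z x => z.2.1 x
  have hzb : ∀ z : zb F b, (z : X) * b = z := fun z => z.2.2
  have hex : ∀ z : zb F b, ∃ y : Subalgebra.center F Y, κ y = z * j := by
    intro z
    obtain ⟨y, hy⟩ := hc.ran (z * j) (by rw [← mul_assoc, ← hcen, mul_assoc, hjj])
      (by rw [mul_assoc, hjj])
    refine ⟨⟨y, ?_⟩, hy⟩
    rw [Subalgebra.mem_center_iff]
    intro w
    apply hc.inj
    rw [hc.mul, hc.mul, hy, ← mul_assoc, ← hcen, mul_assoc, hr, mul_assoc, hl]
  choose φ hφ using hex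
  obtain ⟨Φ, hΦ⟩ : ∃ Φ : zb F b →ₗ[F] Subalgebra.center F Y, ∀ z, Φ z = φ z :=
    ⟨{ toFun := φ
       map_add' := fun z w => by
        apply Subtype.ext
        apply hc.inj
        rw [hφ, Submodule.coe_add, Subalgebra.coe_add, map_add, hφ, hφ, add_mul]
       map_smul' := fun r z => by
        apply Subtype.ext
        apply hc.inj
        rw [hφ, Submodule.coe_smul, RingHom.id_apply, Subalgebra.coe_smul, map_smul, hφ,
          smul_mul_assoc] }, fun _ => rfl⟩
  refine ⟨LinearEquiv.ofBijective Φ ⟨?_, ?_⟩⟩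
  · rw [← LinearMap.ker_eq_bot, LinearMap.ker_eq_bot']
    intro z hz
    have h1 : (z : X) * j = 0 := by
      rw [← hφ, ← hΦ, hz]
      exact map_zero κ
    apply Subtype.ext
    change (z : X) = 0
    have h2 : ∀ x : X, x = b → (z : X) * x = 0 := by
      intro x hx
      rw [hx]
      have h3 : (z : X) * ∑ k, s k * j * t k = 0 := by
        rw [Finset.mul_sum]
        refine Finset.sum_eq_zero fun k _ => ?_
        rw [← mul_assoc, ← mul_assoc, hcen, mul_assoc (s k), h1, mul_zero, zero_mul]
      rw [hst] at h3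
      exact h3
    rw [← hzb z]
    exact h2 b rfl
  · intro y
    obtain ⟨c, hcdef⟩ : ∃ c : X, c = κ y := ⟨_, rfl⟩
    have hjc : j * c = c := by rw [hcdef, hl]
    have hcj : c * j = c := by rw [hcdef, hr]
    have hbc : b * c = c := by rw [← hjc, ← mul_assoc, hbj]
    have hcom : ∀ x, j * x * j * c = c * (j * x * j) := by
      intro x
      obtain ⟨w, hw⟩ := hc.ran (j * x * j) (by rw [← mul_assoc, ← mul_assoc, hjj])
        (by rw [mul_assoc, hjj])
      rw [← hw, hcdef, ← hc.mul, ← hc.mul, Subalgebra.mem_center_iff.1 y.2 w]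
    obtain ⟨z, hz⟩ : ∃ z : X, z = ∑ k, s k * c * t k := ⟨_, rfl⟩
    have hbz : b * z = z := by
      rw [hz, Finset.mul_sum]
      refine Finset.sum_congr rfl fun k _ => ?_
      rw [← mul_assoc, ← mul_assoc, hbs]
    have hzc0 : ∀ x, b * (x * z) = z * x * b := by
      intro x
      conv_lhs => rw [← hst]
      conv_rhs => rw [← hst]
      rw [hz, Finset.sum_mul, Finset.sum_mul, Finset.sum_mul]
      refine Finset.sum_congr rfl fun l _ => ?_
      rw [Finset.mul_sum, Finset.mul_sum, Finset.mul_sum]
      refine Finset.sum_congr rfl fun k _ => ?_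
      calc s l * j * t l * (x * (s k * c * t k))
          = s l * (j * (t l * x * s k) * (j * c)) * t k := by rw [hjc]; simp only [mul_assoc]
        _ = s l * (j * (t l * x * s k) * j * c) * t k := by simp only [mul_assoc]
        _ = s l * (c * (j * (t l * x * s k) * j)) * t k := by rw [hcom]
        _ = s l * (c * j * (t l * x * s k) * j) * t k := by simp only [mul_assoc]
        _ = s l * (c * (t l * x * s k) * j) * t k := by rw [hcj]
        _ = s l * c * t l * x * (s k * j * t k) := by simp only [mul_assoc]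
    have hzb' : z * b = z := by
      have h1 := hzc0 1
      rw [one_mul, mul_one, hbz] at h1
      exact h1.symm
    have hzc : ∀ x, x * z = z * x := by
      intro x
      have h1 := hzc0 x
      rw [← mul_assoc, hcb x, mul_assoc, hbz, mul_assoc, ← hcb x, ← mul_assoc, hzb'] at h1
      exact h1
    have hzj : z * j = c := by
      have h1 : c = (∑ l, s l * j * t l) * c := by rw [hst, hbc]
      rw [h1, hz, Finset.sum_mul, Finset.sum_mul]
      refine Finset.sum_congr rfl fun k _ => ?_
      calc s k * c * t k * j = s k * (c * j * t k) * j := by rw [hcj]; simp only [mul_assoc]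
        _ = s k * (c * (j * t k * j)) := by simp only [mul_assoc]
        _ = s k * (j * t k * j * c) := by rw [hcom]
        _ = s k * j * t k * (j * c) := by simp only [mul_assoc]
        _ = s k * j * t k * c := by rw [hjc]
    refine ⟨⟨z, fun x => (hzc x).symm, hzb'⟩, ?_⟩
    rw [hΦ]
    apply Subtype.ext
    apply hc.inj
    rw [hφ, ← hcdef, ← hzj]

end

theorem zcf : ZcfStmt := by
  intro F A Y _ _ _ _ _ b j κ hc hcb hbb hbj h
  obtain ⟨e⟩ := zcf_aux hc hcb hbb hbj h
  exact e.finrank_eq

end Pool.Agent.PSS.S5.H85
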