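import Pool.Agent.PSS.StmtsS2

/-! Squad PSS, row GWZ (230). -/

set_option autoImplicit false

namespace Pool.Agent.PSS.S2.H85

open Pool.Agent.PFD.D2b (FrR)

theorem cg_sum {R M ι : Type} [CommRing R] [AddCommGroup M] [Module R M] (q : R) (s : Finset ι)
    (f : ι → M) (h : ∀ i ∈ s, Cg q (f i) 0) : Cg q (∑ i ∈ s, f i) 0 := by
  classical
  induction s using Finset.induction with
  | empty => exact ⟨0, by simp⟩
  | insert i s hi ih =>
    obtain ⟨d, hd⟩ := h i (Finset.mem_insert_self _ _)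
    obtain ⟨d', hd'⟩ := ih fun j hj => h j (Finset.mem_insert_of_mem hj)
    refine ⟨d + d', ?_⟩
    rw [sub_zero] at hd hd' ⊢
    rw [Finset.sum_insert hi, hd, hd', smul_add]

theorem gwz : GwzStmt := by
  intro R V A K Ω _ _ _ _ _ _ _ _ q α z x y H b c w hfr hH
  obtain ⟨h1, h2, h3⟩ := hfr
  have hw : ∀ b' : A, bw R α (w, (1 : V)) b' = α w * b' := by
    intro b'
    simp [bw]
  have key : ∀ b' : A, Cg q (Nh H b c (α w * b') - α w * Nh H b c b') 0 := by
    intro b'
    have e1 : Nh H b c (α w * b') = ∑ ω, (c ω b' * H ((w, (1 : V)) • ω)) • (α w * b ω) := by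
      rw [nh_apply, ← Equiv.sum_comp (MulAction.toPerm ((w, (1 : V)) : V × V))]
      refine Finset.sum_congr rfl fun ω _ => ?_
      rw [MulAction.toPerm_apply, h1, ← hw b', h2, hw]
    have e2 : α w * Nh H b c b' = ∑ ω, (c ω b' * H ω) • (α w * b ω) := by
      rw [nh_apply, Finset.mul_sum]
      refine Finset.sum_congr rfl fun ω _ => ?_
      rw [mul_smul_comm]
    rw [e1, e2, ← Finset.sum_sub_distrib]
    refine cg_sum q _ _ fun ω _ => ?_
    obtain ⟨d, hd⟩ := hH ω
    refine ⟨(c ω b' * d) • (α w * b ω), ?_⟩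
    rw [sub_zero, ← sub_smul, ← mul_sub, hd, smul_smul]
    congr 1
    rw [smul_eq_mul]
    ring
  rw [gz_apply]
  refine cg_sum q _ _ fun k _ => ?_
  obtain ⟨d, hd⟩ := key (x k)
  rw [sub_zero] at hd
  refine ⟨d * ((1 - α z⁻¹) * y k), ?_⟩
  rw [sub_zero, hd, smul_mul_assoc]

end Pool.Agent.PSS.S2.H85
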